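import Pool.Agent.H27.GZ.FTEb

/-!
Row FTE of the board gz: decay of the Fourier transforms of the bump functions and of their images
under the dual Euler operator.
-/

namespace Pool.Agent.H27.GZ

open MeasureTheory Pool.Agent.H34.GM Pool.Agent.H34.GZ

/-! ### the Euler operator -/

/-- the Euler operator in `V m` -/
private noncomputable def fE (m : ℕ) (g : V m → ℂ) (z : V m) : ℂ := fderiv ℝ g z z

private lemma eu_eq (m : ℕ) (f : Mat m → ℂ)
    (hf : ContDiff ℝ ((⊤ : ℕ∞) : WithTop ℕ∞) (fun z : V m => f (mt z))) (z : V m) :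
    eu f (mt z) = fE m (fun z : V m => f (mt z)) z := by
  have hd : DifferentiableAt ℝ (fun z : V m => f (mt z)) z :=
    (hf.differentiable (by simp)) z
  have hc : HasDerivAt (fun c : ℝ => c • z) z 1 := by
    simpa using (hasDerivAt_id (1 : ℝ)).smul_const z
  have h1 : HasFDerivAt (fun z : V m => f (mt z)) (fderiv ℝ (fun z : V m => f (mt z)) z)
      ((fun c : ℝ => c • z) 1) := by
    show HasFDerivAt _ _ ((1 : ℝ) • z)
    rw [one_smul]
    exact hd.hasFDerivAt
  have h2 := h1.comp_hasDerivAt (1 : ℝ) hc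
  exact h2.deriv

private lemma fE_smooth (m : ℕ) (g : V m → ℂ) (hg : ContDiff ℝ ((⊤ : ℕ∞) : WithTop ℕ∞) g) :
    ContDiff ℝ ((⊤ : ℕ∞) : WithTop ℕ∞) (fE m g) := by
  have h1 : ContDiff ℝ ((⊤ : ℕ∞) : WithTop ℕ∞) (fderiv ℝ g) :=
    hg.fderiv_right (by simp)
  exact h1.clm_apply contDiff_id

theorem pf_FTE : T_FTD → T_BMP → T_BEU → T_EUL → T_FTE := by
  intro hFTD _ _ _ m χ hm hχ N
  obtain ⟨C1, A1, hC1, h1⟩ := hFTD m χ hm hχ N
  obtain ⟨C2, hC2, h2⟩ := gen_decay m hm N
  obtain ⟨K, hK0, hK⟩ := f_der m χ hχ (N + 1)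
  obtain ⟨D, hD1, hD⟩ := f_bound m (fun z : V m => z) contDiff_id N
  set M : ℝ := (m : ℝ) ^ 2 * K + 2 ^ N * K * D with hM
  have hM0 : 0 ≤ M := by positivity
  refine ⟨C1 + C2 * M, A1 + 2 * (N + 1), by positivity, fun δ h0 hδ w => ?_⟩
  have hi1 : 1 ≤ δ⁻¹ := by
    rw [one_le_inv₀ h0]
    linarith
  have hsw : 0 ≤ sz w := norm_nonneg _
  have hr0 : 0 ≤ (1 + sz w) ^ (-(N : ℝ)) := by positivity
  constructor
  · have h3 : ‖cf (bump m χ δ) w‖ = ‖ft (bump m χ δ) w‖ := by
      unfold cf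
      exact RCLike.norm_conj _
    rw [h3]
    refine ((h1 δ h0 hδ).2 w).trans ?_
    have h4 : δ⁻¹ ^ A1 ≤ δ⁻¹ ^ (A1 + 2 * (N + 1)) := pow_le_pow_right₀ hi1 (by omega)
    have h5 : C1 ≤ C1 + C2 * M := by
      have : 0 ≤ C2 * M := by positivity
      linarith
    gcongr
  · have h3 : ‖cf (eu2 (bump m χ δ)) w‖ = ‖ft (eu2 (bump m χ δ)) w‖ := by
      unfold cf
      exact RCLike.norm_conj _
    rw [h3]
    set g : V m → ℂ := fun z : V m => bump m χ δ (mt z) with hg
    have hgs : ContDiff ℝ ((⊤ : ℕ∞) : WithTop ℕ∞) g := f_smooth m χ hχ δ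
    have hgt : tsupport g ⊆ Metric.closedBall (0 : V m) 2 := f_tsupp m χ hχ δ h0 hδ
    set f : V m → ℂ := fun z => -((m : ℂ) ^ 2 * g z + fE m g z) with hf
    have hfe : ∀ z : V m, eu2 (bump m χ δ) (mt z) = f z := by
      intro z
      show -((m : ℂ) ^ 2 * bump m χ δ (mt z) + eu (bump m χ δ) (mt z)) = _
      rw [eu_eq m _ hgs z]
    have hfs : ContDiff ℝ ((⊤ : ℕ∞) : WithTop ℕ∞) f :=
      ((contDiff_const.mul hgs).add (fE_smooth m g hgs)).neg
    have hEt : ∀ z, fE m g z ≠ 0 → z ∈ tsupport g := by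
      intro z hz
      by_contra h
      apply hz
      have h4 : fderiv ℝ g z = 0 := by
        by_contra h5
        exact h (support_fderiv_subset ℝ (Function.mem_support.mpr h5))
      show fderiv ℝ g z z = 0
      rw [h4]
      rfl
    have hft : tsupport f ⊆ Metric.closedBall (0 : V m) 2 := by
      refine closure_minimal (fun z hz => ?_) Metric.isClosed_closedBall
      by_contra hzb
      have hzt : z ∉ tsupport g := fun h => hzb (hgt h)
      have h4 : g z = 0 := image_eq_zero_of_notMem_tsupport hzt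
      have h5 : fE m g z = 0 := by
        by_contra h6
        exact hzt (hEt z h6)
      apply hz
      show -((m : ℂ) ^ 2 * g z + fE m g z) = 0
      rw [h4, h5]
      simp
    have hder : ∀ p ≤ N, ∀ z, ‖iteratedFDeriv ℝ p f z‖ ≤ M * δ⁻¹ ^ (2 * (N + 1)) := by
      intro p hp z
      by_cases hz : ‖z‖ ≤ 2
      · have h4 : ‖iteratedFDeriv ℝ p g z‖ ≤ K * δ⁻¹ ^ (2 * (N + 1)) :=
          hK δ h0 hδ p (by omega) z
        have h5 : ‖iteratedFDeriv ℝ p (fE m g) z‖ ≤ 2 ^ N * K * D * δ⁻¹ ^ (2 * (N + 1)) := by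
          have h6 := norm_iteratedFDeriv_clm_apply (𝕜 := ℝ) (f := fderiv ℝ g)
            (g := fun z : V m => z) (N := ((⊤ : ℕ∞) : WithTop ℕ∞)) (n := p)
            (hgs.fderiv_right (by simp)) contDiff_id z (by exact_mod_cast le_top)
          refine h6.trans ?_
          have h7 : ∀ i ∈ Finset.range (p + 1), (p.choose i : ℝ) *
              ‖iteratedFDeriv ℝ i (fderiv ℝ g) z‖ *
              ‖iteratedFDeriv ℝ (p - i) (fun z : V m => z) z‖ ≤
              (p.choose i : ℝ) * (K * δ⁻¹ ^ (2 * (N + 1)) * D) := by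
            intro i hi
            have hi' : i ≤ p := by
              have := Finset.mem_range.1 hi
              omega
            have h8 : ‖iteratedFDeriv ℝ i (fderiv ℝ g) z‖ ≤ K * δ⁻¹ ^ (2 * (N + 1)) := by
              rw [norm_iteratedFDeriv_fderiv]
              exact hK δ h0 hδ (i + 1) (by omega) z
            have h9 : ‖iteratedFDeriv ℝ (p - i) (fun z : V m => z) z‖ ≤ D :=
              hD (p - i) (by omega) z hz
            rw [mul_assoc]
            have h10 : ‖iteratedFDeriv ℝ i (fderiv ℝ g) z‖ *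
                ‖iteratedFDeriv ℝ (p - i) (fun z : V m => z) z‖ ≤
                K * δ⁻¹ ^ (2 * (N + 1)) * D :=
              mul_le_mul h8 h9 (norm_nonneg _) (by positivity)
            exact mul_le_mul_of_nonneg_left h10 (by positivity)
          refine (Finset.sum_le_sum h7).trans ?_
          rw [← Finset.sum_mul]
          have h11 : (∑ i ∈ Finset.range (p + 1), (p.choose i : ℝ)) = 2 ^ p := by
            exact_mod_cast Nat.sum_range_choose p
          rw [h11]
          have h12 : (2 : ℝ) ^ p ≤ 2 ^ N := pow_le_pow_right₀ (by norm_num) hp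
          calc (2 : ℝ) ^ p * (K * δ⁻¹ ^ (2 * (N + 1)) * D)
              ≤ 2 ^ N * (K * δ⁻¹ ^ (2 * (N + 1)) * D) :=
                mul_le_mul_of_nonneg_right h12 (by positivity)
            _ = 2 ^ N * K * D * δ⁻¹ ^ (2 * (N + 1)) := by ring
        have hgp : ContDiffAt ℝ p g z := (hgs.of_le (by exact_mod_cast le_top)).contDiffAt
        have hEp : ContDiffAt ℝ p (fE m g) z :=
          ((fE_smooth m g hgs).of_le (by exact_mod_cast le_top)).contDiffAt
        have hf2 : f = -((((m : ℝ) ^ 2) • g) + fE m g) := by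
          funext x
          show -((m : ℂ) ^ 2 * g x + fE m g x) = -(((m : ℝ) ^ 2) • g x + fE m g x)
          rw [Complex.real_smul]
          push_cast
          ring
        have h13 : iteratedFDeriv ℝ p f z =
            -(((m : ℝ) ^ 2) • iteratedFDeriv ℝ p g z + iteratedFDeriv ℝ p (fE m g) z) := by
          rw [hf2, iteratedFDeriv_neg_apply]
          congr 1
          have h14 : ContDiffAt ℝ p (((m : ℝ) ^ 2) • g) z := by
            show ContDiffAt ℝ p (fun y => ((m : ℝ) ^ 2) • g y) z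
            exact hgp.const_smul _
          rw [iteratedFDeriv_add_apply h14 hEp, iteratedFDeriv_const_smul_apply hgp]
        rw [h13, norm_neg]
        refine (norm_add_le _ _).trans ?_
        rw [norm_smul, Real.norm_eq_abs, abs_of_nonneg (by positivity)]
        calc (m : ℝ) ^ 2 * ‖iteratedFDeriv ℝ p g z‖ + ‖iteratedFDeriv ℝ p (fE m g) z‖
            ≤ (m : ℝ) ^ 2 * (K * δ⁻¹ ^ (2 * (N + 1))) + 2 ^ N * K * D * δ⁻¹ ^ (2 * (N + 1)) :=
              add_le_add (mul_le_mul_of_nonneg_left h4 (by positivity)) h5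
          _ = M * δ⁻¹ ^ (2 * (N + 1)) := by
              rw [hM]
              ring
      · rw [der_zero m f hft p z hz, norm_zero]
        positivity
    have h15 := h2 f (M * δ⁻¹ ^ (2 * (N + 1))) hfs hft (by positivity) hder w
    have h16 : ft (eu2 (bump m χ δ)) w = ∫ z : V m, f z * ee (-(w * mt z).trace) := by
      unfold ft
      refine integral_congr_ae (Filter.Eventually.of_forall fun z => ?_)
      show eu2 (bump m χ δ) (mt z) * _ = f z * _
      rw [hfe z]
    rw [h16]
    refine h15.trans ?_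
    have h17 : δ⁻¹ ^ (2 * (N + 1)) ≤ δ⁻¹ ^ (A1 + 2 * (N + 1)) :=
      pow_le_pow_right₀ hi1 (by omega)
    have h18 : C2 * (M * δ⁻¹ ^ (2 * (N + 1))) ≤ (C1 + C2 * M) * δ⁻¹ ^ (A1 + 2 * (N + 1)) := by
      calc C2 * (M * δ⁻¹ ^ (2 * (N + 1))) = (C2 * M) * δ⁻¹ ^ (2 * (N + 1)) := by ring
        _ ≤ (C1 + C2 * M) * δ⁻¹ ^ (A1 + 2 * (N + 1)) := by
            have h19 : C2 * M ≤ C1 + C2 * M := by linarith
            have h20 : 0 ≤ C2 * M := by positivity
            gcongr
    exact mul_le_mul_of_nonneg_right h18 hr0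

end Pool.Agent.H27.GZ
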