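import Pool.Agent.H23.GZ.Targets5

/-!
Row FTE of the board gz, first part: decay of the Fourier transform of a smooth function supported
in a ball.
-/

namespace Pool.Agent.H27.GZ

open MeasureTheory Pool.Agent.H34.GM Pool.Agent.H34.GZ

/-- the coordinate `z i j` -/
noncomputable def fc (m : ℕ) (i j : Fin m) : V m →L[ℝ] ℝ :=
  (ContinuousLinearMap.proj (R := ℝ) (φ := fun _ : Fin m => ℝ) j).comp
    (ContinuousLinearMap.proj (R := ℝ) (φ := fun _ : Fin m => (Fin m → ℝ)) i)

lemma fc_apply (m : ℕ) (i j : Fin m) (z : V m) : fc m i j z = z i j := rfl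

/-- the bilinear form `tr (w z)` -/
noncomputable def fL (m : ℕ) : V m →L[ℝ] V m →L[ℝ] ℝ :=
  ∑ a : Fin m, ∑ b : Fin m, (fc m b a).smulRight (fc m a b)

lemma fL_apply (m : ℕ) (z w : V m) :
    fL m z w = ∑ a : Fin m, ∑ b : Fin m, z b a * w a b := by
  simp [fL, fc_apply]

lemma f_tr (m : ℕ) (z : V m) (w : Mat m) :
    (w * mt z).trace = fL m z (fun i j => w i j) := by
  rw [fL_apply, Matrix.trace]
  refine Finset.sum_congr rfl fun a _ => ?_
  rw [Matrix.diag_apply, Matrix.mul_apply]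
  refine Finset.sum_congr rfl fun b _ => ?_
  exact mul_comm _ _

lemma f_four (m : ℕ) (f : V m → ℂ) (w : V m) :
    VectorFourier.fourierIntegral Real.fourierChar (volume : Measure (V m))
      (ContinuousLinearMap.toLinearMap₁₂ (fL m)) f w =
      ∫ z : V m, f z * ee (-(fL m z w)) := by
  unfold VectorFourier.fourierIntegral
  refine integral_congr_ae (Filter.Eventually.of_forall fun z => ?_)
  show Real.fourierChar (-(fL m z w)) • f z = f z * ee (-(fL m z w))
  rw [Circle.smul_def, smul_eq_mul, mul_comm, Real.fourierChar_apply]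
  unfold ee
  congr 2
  push_cast
  ring

lemma der_zero (m : ℕ) (f : V m → ℂ) (hs : tsupport f ⊆ Metric.closedBall (0 : V m) 2)
    (p : ℕ) (z : V m) (hz : ¬ ‖z‖ ≤ 2) : iteratedFDeriv ℝ p f z = 0 := by
  by_contra h
  have h3 := support_iteratedFDeriv_subset (𝕜 := ℝ) (f := f) p (Function.mem_support.mpr h)
  have h4 := hs h3
  exact hz (by simpa using h4)

lemma f_comp (m : ℕ) (f : V m → ℂ) (hs : tsupport f ⊆ Metric.closedBall (0 : V m) 2) :
    HasCompactSupport f :=
  (isCompact_closedBall (0 : V m) 2).of_isClosed_subset (isClosed_tsupport _) hs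

lemma f_int (m : ℕ) (f : V m → ℂ) (hf : ContDiff ℝ ((⊤ : ℕ∞) : WithTop ℕ∞) f)
    (hs : tsupport f ⊆ Metric.closedBall (0 : V m) 2) (k p : ℕ) :
    Integrable (fun z : V m => ‖z‖ ^ k * ‖iteratedFDeriv ℝ p f z‖) := by
  have hc : Continuous (fun z : V m => iteratedFDeriv ℝ p f z) :=
    ContDiff.continuous_iteratedFDeriv (by exact_mod_cast le_top) hf
  refine Continuous.integrable_of_hasCompactSupport ?_ ?_
  · exact (continuous_norm.pow k).mul hc.norm
  · exact (((f_comp m f hs).iteratedFDeriv (𝕜 := ℝ) p).norm).mul_left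

lemma f_int_le (m : ℕ) (f : V m → ℂ)
    (hs : tsupport f ⊆ Metric.closedBall (0 : V m) 2) (p : ℕ) (K : ℝ)
    (hK : ∀ z : V m, ‖iteratedFDeriv ℝ p f z‖ ≤ K) :
    ∫ z : V m, ‖z‖ ^ 0 * ‖iteratedFDeriv ℝ p f z‖ ≤
      K * (volume : Measure (V m)).real (Metric.closedBall 0 2) := by
  have h2 : ∫ z in Metric.closedBall (0 : V m) 2, ‖iteratedFDeriv ℝ p f z‖ =
      ∫ z : V m, ‖z‖ ^ 0 * ‖iteratedFDeriv ℝ p f z‖ := by
    rw [setIntegral_eq_integral_of_forall_compl_eq_zero]
    · simp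
    · intro z hz
      rw [norm_eq_zero]
      exact der_zero m f hs p z (by simpa using hz)
  rw [← h2]
  refine (le_abs_self _).trans ?_
  rw [← Real.norm_eq_abs]
  exact norm_setIntegral_le_of_norm_le_const (isCompact_closedBall (0 : V m) 2).measure_lt_top
    (fun z _ => by rw [norm_norm]; exact hK z)

lemma gen_decay (m : ℕ) (hm : 1 ≤ m) (N : ℕ) : ∃ C : ℝ, 0 ≤ C ∧
    ∀ (f : V m → ℂ) (K : ℝ), ContDiff ℝ ((⊤ : ℕ∞) : WithTop ℕ∞) f →
      tsupport f ⊆ Metric.closedBall (0 : V m) 2 → 0 ≤ K →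
      (∀ p ≤ N, ∀ z, ‖iteratedFDeriv ℝ p f z‖ ≤ K) →
      ∀ w : Mat m, ‖∫ z : V m, f z * ee (-(w * mt z).trace)‖ ≤
        C * K * (1 + sz w) ^ (-(N : ℝ)) := by
  set vol : ℝ := (volume : Measure (V m)).real (Metric.closedBall 0 2) with hvol
  have hvol0 : 0 ≤ vol := measureReal_nonneg
  refine ⟨2 * 2 ^ N * (2 ^ N * ((N + 1) * vol)), by positivity,
    fun f K hf hs hK0 hK w => ?_⟩
  have hft : ∫ z : V m, f z * ee (-(w * mt z).trace) =
      VectorFourier.fourierIntegral Real.fourierChar (volume : Measure (V m))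
      (ContinuousLinearMap.toLinearMap₁₂ (fL m)) f (fun i j => w i j) := by
    rw [f_four]
    refine integral_congr_ae (Filter.Eventually.of_forall fun z => ?_)
    show _ * ee _ = _ * ee _
    rw [f_tr]
  set W : V m := fun i j => w i j with hW
  have hsz : sz w = ‖W‖ := rfl
  set F : ℂ := ∫ z : V m, f z * ee (-(w * mt z).trace) with hF
  have hb : ∀ n ≤ N, ‖W‖ ^ n * ‖F‖ ≤ 2 ^ N * ((N + 1) * (K * vol)) := by
    intro n hn
    have hne : Nonempty (Fin m) := ⟨⟨0, by omega⟩⟩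
    obtain ⟨i, hi⟩ := Finite.exists_max (fun i => ‖W i‖)
    obtain ⟨j, hj⟩ := Finite.exists_max (fun j => ‖W i j‖)
    have hWi : ‖W‖ ≤ |W i j| := by
      rw [pi_norm_le_iff_of_nonneg (abs_nonneg _)]
      intro i'
      refine (hi i').trans ?_
      rw [pi_norm_le_iff_of_nonneg (abs_nonneg _)]
      intro j'
      exact hj j'
    have h2 := VectorFourier.pow_mul_norm_iteratedFDeriv_fourierIntegral_le (fL m)
      (μ := (volume : Measure (V m))) (K := ⊤) (N := ⊤)
      (f := f) hf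
      (fun k p _ _ => f_int m f hf hs k p) (k := 0) (n := n) le_top le_top
      (Pi.single j (Pi.single i 1)) W
    have hLv : fL m (Pi.single j (Pi.single i 1)) W = W i j := by
      rw [fL_apply]
      rw [Finset.sum_eq_single i, Finset.sum_eq_single j]
      · simp
      · intro b _ hb
        simp [Pi.single_eq_of_ne hb]
      · simp
      · intro a _ ha
        refine Finset.sum_eq_zero fun b _ => ?_
        by_cases hbj : b = j
        · subst hbj
          simp [Pi.single_eq_of_ne ha]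
        · simp [Pi.single_eq_of_ne hbj]
      · simp
    have hvn : ‖(Pi.single j (Pi.single i 1) : V m)‖ ≤ 1 := by
      rw [pi_norm_le_iff_of_nonneg zero_le_one]
      intro a
      rw [pi_norm_le_iff_of_nonneg zero_le_one]
      intro b
      by_cases ha : a = j
      · subst ha
        by_cases hb : b = i
        · subst hb
          simp
        · simp [Pi.single_eq_of_ne hb]
      · simp [Pi.single_eq_of_ne ha]
    rw [hLv, norm_iteratedFDeriv_zero, ← hft] at h2
    have h3 : ∑ p ∈ Finset.range (0 + 1) ×ˢ Finset.range (n + 1),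
        ∫ v : V m, ‖v‖ ^ p.1 * ‖iteratedFDeriv ℝ p.2 f v‖ ≤ (N + 1) * (K * vol) := by
      have h4 : ∀ p ∈ Finset.range (0 + 1) ×ˢ Finset.range (n + 1),
          ∫ v : V m, ‖v‖ ^ p.1 * ‖iteratedFDeriv ℝ p.2 f v‖ ≤ K * vol := by
        intro p hp
        simp only [Finset.mem_product, Finset.mem_range] at hp
        have hp1 : p.1 = 0 := by omega
        rw [hp1]
        exact f_int_le m f hs p.2 _ (fun z => hK p.2 (by omega) z)
      refine (Finset.sum_le_card_nsmul _ _ _ h4).trans ?_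
      rw [Finset.card_product, Finset.card_range, Finset.card_range, nsmul_eq_mul]
      push_cast
      have h5 : (n : ℝ) ≤ N := by exact_mod_cast hn
      have h6 : 0 ≤ K * vol := by positivity
      nlinarith
    have hn2 : (2 : ℝ) ^ n ≤ 2 ^ N := pow_le_pow_right₀ (by norm_num) hn
    calc ‖W‖ ^ n * ‖F‖ ≤ |W i j| ^ n * ‖F‖ := by gcongr
      _ ≤ ‖(Pi.single j (Pi.single i 1) : V m)‖ ^ n * (2 * Real.pi * ‖fL m‖) ^ 0 *
          (2 * ((0 : ℕ) : ℝ) + 2) ^ n * ∑ p ∈ Finset.range (0 + 1) ×ˢ Finset.range (n + 1),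
        ∫ v : V m, ‖v‖ ^ p.1 * ‖iteratedFDeriv ℝ p.2 f v‖ := h2
      _ ≤ 1 ^ n * 1 * (2 : ℝ) ^ N * ((N + 1) * (K * vol)) := by
          rw [pow_zero]
          have h7 : (2 * ((0 : ℕ) : ℝ) + 2) ^ n ≤ 2 ^ N := by
            simpa using hn2
          have h8 : 0 ≤ ∑ p ∈ Finset.range (0 + 1) ×ˢ Finset.range (n + 1),
              ∫ v : V m, ‖v‖ ^ p.1 * ‖iteratedFDeriv ℝ p.2 f v‖ :=
            Finset.sum_nonneg fun p _ => integral_nonneg fun v =>
              mul_nonneg (pow_nonneg (norm_nonneg _) _) (norm_nonneg _)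
          have h9 : ‖(Pi.single j (Pi.single i 1) : V m)‖ ^ n ≤ 1 ^ n :=
            pow_le_pow_left₀ (norm_nonneg _) hvn n
          have h10 : ‖(Pi.single j (Pi.single i 1) : V m)‖ ^ n * 1 ≤ 1 ^ n * 1 := by
            rw [mul_one, mul_one]
            exact h9
          have h11 : (0 : ℝ) ≤ (2 * ((0 : ℕ) : ℝ) + 2) ^ n := by positivity
          have h12 := mul_le_mul h10 h7 h11 (by norm_num : (0 : ℝ) ≤ 1 ^ n * 1)
          exact mul_le_mul h12 h3 h8 (by positivity)
      _ = 2 ^ N * ((N + 1) * (K * vol)) := by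
          rw [one_pow]
          ring
  have hF0 := hb 0 (Nat.zero_le _)
  have hFN := hb N le_rfl
  rw [pow_zero, one_mul] at hF0
  set M : ℝ := 2 ^ N * ((N + 1) * (K * vol)) with hM
  have hM0 : 0 ≤ M := by positivity
  have hW0 : 0 ≤ ‖W‖ := norm_nonneg _
  have hpw : (1 + ‖W‖) ^ N ≤ 2 ^ N * (1 + ‖W‖ ^ N) := by
    rcases le_total ‖W‖ 1 with h | h
    · calc (1 + ‖W‖) ^ N ≤ 2 ^ N := by
            gcongr
            linarith
        _ ≤ 2 ^ N * (1 + ‖W‖ ^ N) := by
            have : 0 ≤ ‖W‖ ^ N := by positivity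
            nlinarith [pow_pos (show (0 : ℝ) < 2 by norm_num) N]
    · calc (1 + ‖W‖) ^ N ≤ (2 * ‖W‖) ^ N := by
            gcongr
            linarith
        _ = 2 ^ N * ‖W‖ ^ N := mul_pow _ _ _
        _ ≤ 2 ^ N * (1 + ‖W‖ ^ N) := by
            gcongr
            linarith
  rw [hsz, Real.rpow_neg (by positivity), Real.rpow_natCast, ← div_eq_mul_inv,
    le_div_iff₀ (by positivity)]
  calc ‖F‖ * (1 + ‖W‖) ^ N ≤ ‖F‖ * (2 ^ N * (1 + ‖W‖ ^ N)) := by gcongr
    _ = 2 ^ N * (‖F‖ + ‖W‖ ^ N * ‖F‖) := by ring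
    _ ≤ 2 ^ N * (M + M) := by gcongr
    _ = 2 * 2 ^ N * (2 ^ N * ((N + 1) * vol)) * K := by
        rw [hM]
        ring

end Pool.Agent.H27.GZ
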