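import Pool.Agent.H27.GZ.FTEa

/-!
Row FTE of the board gz, second part: the derivatives of the bump functions.
-/

namespace Pool.Agent.H27.GZ

open MeasureTheory Pool.Agent.H34.GM Pool.Agent.H34.GZ

/-! ### the bump functions -/

noncomputable def fS (m : ℕ) (z : V m) : ℝ :=
  ∑ i, ∑ j, (((mt z).transpose * mt z - 1) i j) ^ 2

lemma fS_eq (m : ℕ) (z : V m) : fS m z =
    ∑ i, ∑ j, ((∑ k, z k i * z k j) - (1 : Mat m) i j) ^ 2 := by
  unfold fS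
  refine Finset.sum_congr rfl fun i _ => Finset.sum_congr rfl fun j _ => ?_
  rw [Matrix.sub_apply, Matrix.mul_apply]
  rfl

lemma fS_smooth (m : ℕ) : ContDiff ℝ ((⊤ : ℕ∞) : WithTop ℕ∞) (fS m) := by
  have h : fS m = fun z : V m =>
      ∑ i, ∑ j, ((∑ k, fc m k i z * fc m k j z) - (1 : Mat m) i j) ^ 2 := by
    funext z
    rw [fS_eq]
    rfl
  rw [h]
  refine ContDiff.sum fun i _ => ContDiff.sum fun j _ => ContDiff.pow ?_ 2
  refine ContDiff.sub (ContDiff.sum fun k _ => ?_) contDiff_const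
  exact (fc m k i).contDiff.mul (fc m k j).contDiff

lemma fS_ball (m : ℕ) (z : V m) (h : fS m z ≤ 1 / 4) : ‖z‖ ≤ 2 := by
  rw [pi_norm_le_iff_of_nonneg (by norm_num)]
  intro i
  rw [pi_norm_le_iff_of_nonneg (by norm_num)]
  intro j
  have h1 : ((∑ k, z k j * z k j) - (1 : Mat m) j j) ^ 2 ≤ 1 / 4 := by
    refine le_trans ?_ h
    rw [fS_eq]
    refine le_trans ?_ (Finset.single_le_sum (f := fun i => ∑ j, ((∑ k, z k i * z k j) -
      (1 : Mat m) i j) ^ 2) (fun i _ => Finset.sum_nonneg fun j _ => sq_nonneg _)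
      (Finset.mem_univ j))
    exact Finset.single_le_sum (f := fun j' => ((∑ k, z k j * z k j') -
      (1 : Mat m) j j') ^ 2) (fun i _ => sq_nonneg _) (Finset.mem_univ j)
  rw [Matrix.one_apply_eq] at h1
  have h2 : z i j * z i j ≤ ∑ k, z k j * z k j :=
    Finset.single_le_sum (f := fun k => z k j * z k j) (fun k _ => mul_self_nonneg _)
      (Finset.mem_univ i)
  rw [Real.norm_eq_abs]
  refine abs_le_of_sq_le_sq ?_ (by norm_num)
  nlinarith [abs_nonneg (z i j)]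

lemma fg_bound (χ : ℝ → ℝ) (hχ : Prof χ) (N : ℕ) : ∃ B : ℝ, 0 ≤ B ∧ ∀ i ≤ N, ∀ x : ℝ,
    ‖iteratedFDeriv ℝ i (fun x : ℝ => (χ x : ℂ)) x‖ ≤ B := by
  have hs : ContDiff ℝ ((⊤ : ℕ∞) : WithTop ℕ∞) (fun x : ℝ => (χ x : ℂ)) :=
    Complex.ofRealCLM.contDiff.comp hχ.smooth
  have hc : HasCompactSupport (fun x : ℝ => (χ x : ℂ)) := by
    refine HasCompactSupport.intro (K := Set.Icc (-1) 1) isCompact_Icc fun x hx => ?_
    have h1 : 1 ≤ |x| := by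
      by_contra h
      rw [not_le] at h
      exact hx ⟨by linarith [(abs_lt.mp h).1], by linarith [(abs_lt.mp h).2]⟩
    rw [hχ.supp x h1]
    simp
  have h1 : ∀ i : ℕ, ∃ B : ℝ, ∀ x : ℝ,
      ‖iteratedFDeriv ℝ i (fun x : ℝ => (χ x : ℂ)) x‖ ≤ B := fun i =>
    Continuous.bounded_above_of_compact_support
      (ContDiff.continuous_iteratedFDeriv (by exact_mod_cast le_top) hs) (hc.iteratedFDeriv i)
  choose B hB using h1
  refine ⟨∑ i ∈ Finset.range (N + 1), |B i|, Finset.sum_nonneg fun i _ => abs_nonneg _,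
    fun i hi x => ?_⟩
  refine (hB i x).trans ((le_abs_self _).trans ?_)
  exact Finset.single_le_sum (f := fun i => |B i|) (fun i _ => abs_nonneg _)
    (Finset.mem_range.mpr (by omega))

lemma f_bound (m : ℕ) {F : Type} [NormedAddCommGroup F] [NormedSpace ℝ F]
    (f : V m → F) (hf : ContDiff ℝ ((⊤ : ℕ∞) : WithTop ℕ∞) f) (N : ℕ) :
    ∃ D : ℝ, 1 ≤ D ∧ ∀ i ≤ N, ∀ z : V m, ‖z‖ ≤ 2 → ‖iteratedFDeriv ℝ i f z‖ ≤ D := by
  have h1 : ∀ i : ℕ, ∃ B : ℝ, ∀ z ∈ Metric.closedBall (0 : V m) 2,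
      ‖iteratedFDeriv ℝ i f z‖ ≤ B := fun i =>
    (isCompact_closedBall (0 : V m) 2).exists_bound_of_continuousOn
      (ContDiff.continuous_iteratedFDeriv (by exact_mod_cast le_top) hf).continuousOn
  choose B hB using h1
  refine ⟨1 + ∑ i ∈ Finset.range (N + 1), |B i|,
    by linarith [Finset.sum_nonneg fun (i : ℕ) (_ : i ∈ Finset.range (N + 1)) => abs_nonneg (B i)],
    fun i hi z hz => ?_⟩
  refine (hB i z (by simpa using hz)).trans ((le_abs_self _).trans ?_)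
  have h2 := Finset.single_le_sum (f := fun i => |B i|) (fun i _ => abs_nonneg _)
    (Finset.mem_range.mpr (show i < N + 1 by omega))
  linarith

lemma fb_eq (m : ℕ) (χ : ℝ → ℝ) (δ : ℝ) :
    (fun z : V m => bump m χ δ (mt z)) =
      (fun x : ℝ => (χ x : ℂ)) ∘ ((δ ^ 2)⁻¹ • fS m) := by
  funext z
  show ((χ _ : ℝ) : ℂ) = ((χ _ : ℝ) : ℂ)
  congr 2
  show fS m z / δ ^ 2 = (δ ^ 2)⁻¹ * fS m z
  rw [div_eq_inv_mul]

lemma f_Sd (m : ℕ) (δ : ℝ) :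
    ContDiff ℝ ((⊤ : ℕ∞) : WithTop ℕ∞) ((δ ^ 2)⁻¹ • fS m) := by
  show ContDiff ℝ ((⊤ : ℕ∞) : WithTop ℕ∞) (fun y => (δ ^ 2)⁻¹ • fS m y)
  exact (fS_smooth m).const_smul _

lemma f_smooth (m : ℕ) (χ : ℝ → ℝ) (hχ : Prof χ) (δ : ℝ) :
    ContDiff ℝ ((⊤ : ℕ∞) : WithTop ℕ∞) (fun z : V m => bump m χ δ (mt z)) := by
  rw [fb_eq]
  have hs : ContDiff ℝ ((⊤ : ℕ∞) : WithTop ℕ∞) (fun x : ℝ => (χ x : ℂ)) :=
    Complex.ofRealCLM.contDiff.comp hχ.smooth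
  exact hs.comp (f_Sd m δ)

lemma f_supp (m : ℕ) (χ : ℝ → ℝ) (hχ : Prof χ) (δ : ℝ) (h0 : 0 < δ) (h1 : δ ≤ 1 / 2)
    (z : V m) (hz : bump m χ δ (mt z) ≠ 0) : ‖z‖ ≤ 2 := by
  apply fS_ball
  by_contra h
  rw [not_le] at h
  apply hz
  show ((χ (fS m z / δ ^ 2) : ℝ) : ℂ) = 0
  have h2 : 1 ≤ fS m z / δ ^ 2 := by
    rw [le_div_iff₀ (by positivity)]
    nlinarith
  rw [hχ.supp _ (h2.trans (le_abs_self _))]
  simp

lemma f_tsupp (m : ℕ) (χ : ℝ → ℝ) (hχ : Prof χ) (δ : ℝ) (h0 : 0 < δ)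
    (h1 : δ ≤ 1 / 2) : tsupport (fun z : V m => bump m χ δ (mt z)) ⊆
      Metric.closedBall (0 : V m) 2 := by
  refine closure_minimal (fun z hz => ?_) Metric.isClosed_closedBall
  simpa using f_supp m χ hχ δ h0 h1 z hz

/-- bound for the derivatives -/
lemma f_der (m : ℕ) (χ : ℝ → ℝ) (hχ : Prof χ) (N : ℕ) : ∃ K : ℝ, 0 ≤ K ∧
    ∀ δ : ℝ, 0 < δ → δ ≤ 1 / 2 → ∀ p ≤ N, ∀ z : V m,
      ‖iteratedFDeriv ℝ p (fun z : V m => bump m χ δ (mt z)) z‖ ≤ K * δ⁻¹ ^ (2 * N) := by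
  obtain ⟨B, hB0, hB⟩ := fg_bound χ hχ N
  obtain ⟨D, hD1, hD⟩ := f_bound m (fS m) (fS_smooth m) N
  refine ⟨N.factorial * B * D ^ N, by positivity, fun δ h0 h1 p hp z => ?_⟩
  have hi1 : 1 ≤ δ⁻¹ := by
    rw [one_le_inv₀ h0]
    linarith
  by_cases hz : ‖z‖ ≤ 2
  · rw [fb_eq]
    have hs : ContDiff ℝ ((⊤ : ℕ∞) : WithTop ℕ∞) (fun x : ℝ => (χ x : ℂ)) :=
      Complex.ofRealCLM.contDiff.comp hχ.smooth
    have hb : 1 ≤ D * δ⁻¹ ^ 2 := by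
      have : 1 ≤ δ⁻¹ ^ 2 := one_le_pow₀ hi1
      nlinarith
    have h2 := norm_iteratedFDeriv_comp_le (𝕜 := ℝ) (g := fun x : ℝ => (χ x : ℂ))
      (f := (δ ^ 2)⁻¹ • fS m) (n := p) hs (f_Sd m δ)
      (by exact_mod_cast le_top) z (C := B) (D := D * δ⁻¹ ^ 2)
      (fun i hi => hB i (hi.trans hp) _) (fun i hi1' hip => by
        have h3 : iteratedFDeriv ℝ i ((δ ^ 2)⁻¹ • fS m) z =
            (δ ^ 2)⁻¹ • iteratedFDeriv ℝ i (fS m) z :=
          iteratedFDeriv_const_smul_apply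
            (((fS_smooth m).of_le (by exact_mod_cast le_top)).contDiffAt)
        rw [h3, norm_smul, Real.norm_eq_abs, abs_of_nonneg (by positivity)]
        calc (δ ^ 2)⁻¹ * ‖iteratedFDeriv ℝ i (fS m) z‖ ≤ (δ ^ 2)⁻¹ * D := by
              gcongr
              exact hD i (hip.trans hp) z hz
          _ = (D * δ⁻¹ ^ 2) ^ 1 := by
              rw [pow_one, inv_pow, mul_comm]
          _ ≤ (D * δ⁻¹ ^ 2) ^ i := pow_le_pow_right₀ hb hi1')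
    refine h2.trans ?_
    have h4 : (p.factorial : ℝ) ≤ N.factorial := by
      exact_mod_cast Nat.factorial_le hp
    have h5 : (D * δ⁻¹ ^ 2) ^ p ≤ (D * δ⁻¹ ^ 2) ^ N := pow_le_pow_right₀ hb hp
    calc (p.factorial : ℝ) * B * (D * δ⁻¹ ^ 2) ^ p
        ≤ (N.factorial : ℝ) * B * (D * δ⁻¹ ^ 2) ^ N := by gcongr
      _ = N.factorial * B * D ^ N * δ⁻¹ ^ (2 * N) := by
          rw [mul_pow, ← pow_mul]
          ring
  · rw [der_zero m _ (f_tsupp m χ hχ δ h0 h1) p z hz, norm_zero]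
    positivity

end Pool.Agent.H27.GZ
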