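import Pool.Agent.H23.GZ.Targets5

/-!
Row PHX of the board gz: the adapted test function (assembly).
-/

namespace Pool.Agent.H27.GZ

open MeasureTheory Pool.Agent.H34.GM Pool.Agent.H34.GZ

lemma phx_rap {m : ℕ} {f : Mat m → ℂ} (hf : TstS m f) : Rap f := by
  obtain ⟨c, hc, hs⟩ := hf.supp
  obtain ⟨M0, hM0⟩ := hf.smooth.continuous.bounded_above_of_compact_support hf.comp
  intro N
  refine ⟨|M0| * (1 + c) ^ N, fun z => ?_⟩
  have hz0 : 0 ≤ sz z := norm_nonneg _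
  have h1 : 0 < (1 + sz z) ^ (-(N : ℝ)) := Real.rpow_pos_of_pos (by linarith) _
  by_cases hz : f z = 0
  · rw [hz, norm_zero]
    positivity
  · have h2 : ‖f z‖ ≤ |M0| := (hM0 (fun i j => z i j)).trans (le_abs_self _)
    have h3 := (hs z hz).1
    have h4 : 1 ≤ (1 + c) ^ N * (1 + sz z) ^ (-(N : ℝ)) := by
      rw [Real.rpow_neg (by linarith), Real.rpow_natCast, ← div_eq_mul_inv,
        one_le_div (by positivity)]
      gcongr
    calc ‖f z‖ ≤ |M0| * 1 := by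
          rw [mul_one]
          exact h2
      _ ≤ |M0| * ((1 + c) ^ N * (1 + sz z) ^ (-(N : ℝ))) :=
          mul_le_mul_of_nonneg_left h4 (abs_nonneg _)
      _ = |M0| * (1 + c) ^ N * (1 + sz z) ^ (-(N : ℝ)) := by ring

lemma phx_dec {m : ℕ} {f : Mat m → ℂ} (hf : Dec m f) : Rap f := by
  intro N
  obtain ⟨C, -, h⟩ := hf.dec N
  exact ⟨C, h⟩

lemma phx_n2 (w : ℂ) : ‖(2 : ℂ) ^ w‖ = (2 : ℝ) ^ w.re := by
  have h := Complex.norm_cpow_eq_rpow_re_of_pos (show (0 : ℝ) < 2 by norm_num) w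
  rwa [Complex.ofReal_ofNat] at h

lemma phx_cmu {m : ℕ} (mu : Fin m → ℂ) (j : Fin m) :
    ‖cmu mu j‖ = (2 : ℝ) ^ ((mu j).re + ((m : ℝ) - 1) / 2) := by
  unfold cmu
  rw [phx_n2]
  congr 1
  simp

lemma phx_thb {m : ℕ} (hm : 1 ≤ m) (hTHE : T_THE) {mu : Fin m → ℂ} (h0 : ∑ j, mu j = 0)
    {f f1 : Mat m → ℂ} (hc : Continuous f) (hc1 : Continuous f1) (hr : Rap f) (hr1 : Rap f1)
    (hd : ∀ z, HasDerivAt (fun c : ℝ => f (c • z)) (f1 z) 1) {M ε : ℝ} {K : ℕ}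
    (hb0 : ∀ r : ℝ, 0 < r → ‖th1 f mu r‖ ≤ M * min (r ^ K) (r ^ ((m : ℝ) ^ 2 / 2 + ε)))
    (hb1 : ∀ r : ℝ, 0 < r → ‖th1 f1 mu r‖ ≤ M * min (r ^ K) (r ^ ((m : ℝ) ^ 2 / 2 + ε))) :
    ThB f mu M ε K := by
  have hD : ∀ r : ℝ, 0 < r → HasDerivAt (th1 f mu) (-((r : ℂ)⁻¹ * th1 f1 mu r)) r :=
    hTHE m hm mu h0 f f1 hc hc1 hr hr1 hd
  refine ⟨fun r hr => (hD r hr).differentiableAt.differentiableWithinAt, hb0, fun r hr => ?_⟩
  rw [(hD r hr).deriv, norm_neg, norm_mul, norm_inv, Complex.norm_real,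
    Real.norm_of_nonneg hr.le, ← mul_assoc, mul_inv_cancel₀ hr.ne', one_mul]
  exact hb1 r hr

lemma phx_low {m : ℕ} (hPKB : T_PKB) (mu : Fin m → ℂ) (t e θ : ℝ) (he : 0 < e)
    (hθ0 : 0 < θ) (hθ1 : θ ≤ 1) (hθ2 : θ ≤ (2 : ℝ) ^ e - 1) (Kv : Fin m → ℕ) (Kx : ℕ)
    (hKx : ∀ j, Kv j ≤ Kx)
    (hK : ∀ j, 1 ≤ Kv j → ((Kv j : ℝ) - 1) + e ≤ (mu j).re - 1 / 2) :
    θ ^ (Kx * m) ≤ ‖∏ j, ∑ n ∈ Finset.range (Kv j + 1), (((pK (Kv j)).coeff n : ℝ) : ℂ) *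
      ((starRingEnd ℂ) (cmu mu j) *
        (2 : ℂ) ^ ((1 / 2 + t * Complex.I) + ((m : ℂ) - 1) / 2 - m)) ^ n‖ := by
  rw [norm_prod]
  have h1 : θ ^ (Kx * m) = ∏ _j : Fin m, θ ^ Kx := by
    rw [Finset.prod_const, Finset.card_univ, Fintype.card_fin, pow_mul]
  rw [h1]
  refine Finset.prod_le_prod (fun j _ => by positivity) fun j _ => ?_
  rcases Nat.eq_zero_or_pos (Kv j) with h2 | h2
  · rw [hPKB.1, h2, Finset.range_zero, Finset.prod_empty, norm_one]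
    exact pow_le_one₀ hθ0.le hθ1
  · refine le_trans ?_ (hPKB.2.1 (Kv j) _ e he ?_)
    · calc θ ^ Kx ≤ θ ^ (Kv j) := pow_le_pow_of_le_one hθ0.le hθ1 (hKx j)
        _ ≤ ((2 : ℝ) ^ e - 1) ^ (Kv j) := pow_le_pow_left₀ hθ0.le hθ2 _
    · rw [norm_mul, RCLike.norm_conj, phx_cmu, phx_n2, ← Real.rpow_add (by norm_num)]
      refine Real.rpow_le_rpow_of_exponent_le (by norm_num) ?_
      have h3 : ((1 / 2 + t * Complex.I) + ((m : ℂ) - 1) / 2 - m : ℂ).re =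
          1 / 2 + ((m : ℝ) - 1) / 2 - m := by
        simp
      rw [h3]
      have h4 := hK j h2
      linarith

theorem pf_PHX : T_PRF → T_BMP → T_ZLB → T_BEU → T_FTE → T_FTG → T_EUL → T_EKD → T_ZEK →
    T_PKB → T_THE → T_TCM → T_TCK → T_THB → T_MSR → (∀ B, T_PHX B) := by
  intro hPRF _ hZLB hBEU hFTE hFTG hEUL hEKD hZEK hPKB hTHE _ hTCK hTHB hMSR B m hm ε K hε hKε
  obtain ⟨χ, hχ⟩ := hPRF
  have hmR : (1 : ℝ) ≤ m := by exact_mod_cast hm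
  -- the constants
  set B0 : ℝ := m * |B m| with hB0
  have hB00 : 0 ≤ B0 := by positivity
  set e : ℝ := ε / (4 * m) with he
  have he0 : 0 < e := by positivity
  set B1 : ℝ := B0 + 1 + (2 : ℝ) ^ (B0 + m) with hB1
  have h2B : (0 : ℝ) < (2 : ℝ) ^ (B0 + m) := Real.rpow_pos_of_pos (by norm_num) _
  have hB10 : 0 ≤ B1 := by positivity
  obtain ⟨c0, CT, hc0, hCT, hT⟩ := hTCK m hm ε B1 K hε hB10
  obtain ⟨CH, N, hCH, hH⟩ := hTHB B1 hB10 m hm ε K hε hKε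
  obtain ⟨CB, AB, hCB, hB⟩ := hBEU m χ hm hχ
  obtain ⟨CF, AF, hCF, hF⟩ := hFTE m χ hm hχ N
  obtain ⟨cZ, c1, hcZ, hc1, hZ⟩ := hZLB m χ hm hχ
  have h2e : 0 < (2 : ℝ) ^ e - 1 := by
    have := Real.one_lt_rpow (show (1 : ℝ) < 2 by norm_num) he0
    linarith
  set θ : ℝ := min 1 ((2 : ℝ) ^ e - 1) with hθ
  have hθ0 : 0 < θ := lt_min one_pos h2e
  have hθ1 : θ ≤ 1 := min_le_left _ _
  have hθ2 : θ ≤ (2 : ℝ) ^ e - 1 := min_le_right _ _
  set Kx : ℕ := ⌊B0 + 1⌋₊ with hKx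
  set c : ℝ := min (min c0 (cZ / 2)) (θ ^ (Kx * m) * c1) with hc
  have hcpos : 0 < c := lt_min (lt_min hc0 (by positivity)) (by positivity)
  refine ⟨(CT + CH) * (1 + (m : ℝ) ^ 2 + CB + CF), c, AB + AF, by positivity, hcpos,
    fun mu t δ hmu hre hδ0 hδ hδc => ?_⟩
  have hi1 : 1 ≤ δ⁻¹ := by
    rw [one_le_inv₀ hδ0]
    linarith
  -- the parameters
  have hsum : ∑ j, (mu j).re = 0 := by
    rw [← Complex.re_sum, hmu, Complex.zero_re]
  have hre1 : ∀ j, |(mu j).re| ≤ B0 := by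
    intro j
    have hBm : 0 ≤ |B m| := abs_nonneg _
    have h1 : ∀ i, (mu i).re ≤ |B m| := fun i => (hre i).trans (le_abs_self _)
    have h2 : (mu j).re + ∑ i ∈ Finset.univ.erase j, (mu i).re = 0 :=
      (Finset.add_sum_erase Finset.univ (fun i => (mu i).re) (Finset.mem_univ j)).trans hsum
    have h3 : ∑ i ∈ Finset.univ.erase j, (mu i).re ≤ ((m : ℝ) - 1) * |B m| := by
      refine (Finset.sum_le_card_nsmul _ _ _ fun i _ => h1 i).trans ?_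
      rw [Finset.card_erase_of_mem (Finset.mem_univ j), Finset.card_univ, Fintype.card_fin,
        nsmul_eq_mul, Nat.cast_sub hm, Nat.cast_one]
    have h4 := h1 j
    have h5 : ((m : ℝ) - 1) * |B m| ≤ m * |B m| := mul_le_mul_of_nonneg_right (by linarith) hBm
    have h6 : |B m| ≤ m * |B m| := le_mul_of_one_le_left hBm hmR
    rw [abs_le, hB0]
    constructor <;> linarith
  set Kv : Fin m → ℕ := fun j => ⌈(mu j).re - 1 / 2 - e⌉₊ with hKv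
  have hK1 : ∀ j, (mu j).re - Kv j ≤ 1 / 2 + e := by
    intro j
    have := Nat.le_ceil ((mu j).re - 1 / 2 - e)
    show (mu j).re - (⌈(mu j).re - 1 / 2 - e⌉₊ : ℝ) ≤ 1 / 2 + e
    linarith
  have hK2 : ∀ j, 1 ≤ Kv j → ((Kv j : ℝ) - 1) + e ≤ (mu j).re - 1 / 2 := by
    intro j hj
    have h1 : Kv j - 1 < ⌈(mu j).re - 1 / 2 - e⌉₊ := by
      have : Kv j = ⌈(mu j).re - 1 / 2 - e⌉₊ := rfl
      omega
    have h2 := Nat.lt_ceil.1 h1
    rw [Nat.cast_sub hj, Nat.cast_one] at h2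
    linarith
  have hK3 : ∀ j, (Kv j : ℝ) ≤ B0 + 1 := by
    intro j
    rcases Nat.eq_zero_or_pos (Kv j) with h1 | h1
    · rw [h1, Nat.cast_zero]
      linarith
    · have h2 := hK2 j h1
      have h3 := (abs_le.1 (hre1 j)).2
      linarith
  have hK4 : ∀ j, Kv j ≤ Kx := fun j => Nat.le_floor (hK3 j)
  have hK5 : ∀ j, (Kv j : ℝ) ≤ B1 := by
    intro j
    have := hK3 j
    rw [hB1]
    linarith
  have hre2 : ∀ j, |(mu j).re| ≤ B1 := by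
    intro j
    have := hre1 j
    rw [hB1]
    linarith
  set cc : Fin m → ℂ := fun j => (starRingEnd ℂ) (cmu mu j) with hcc
  have hcc1 : ∀ j, ‖cc j‖ ≤ B1 := by
    intro j
    have h1 : ‖cc j‖ = (2 : ℝ) ^ ((mu j).re + ((m : ℝ) - 1) / 2) := by
      show ‖(starRingEnd ℂ) (cmu mu j)‖ = _
      rw [RCLike.norm_conj, phx_cmu]
    rw [h1]
    have h2 : (2 : ℝ) ^ ((mu j).re + ((m : ℝ) - 1) / 2) ≤ (2 : ℝ) ^ (B0 + m) := by
      refine Real.rpow_le_rpow_of_exponent_le (by norm_num) ?_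
      have h3 := (abs_le.1 (hre1 j)).2
      linarith
    rw [hB1]
    linarith
  have hcc2 : (fun j => (starRingEnd ℂ) (cc j)) = cmu mu := by
    funext j
    exact Complex.conj_conj _
  have hS0 : 0 ≤ ∑ j, ‖mu j‖ := Finset.sum_nonneg fun j _ => norm_nonneg _
  have hc_le0 : c ≤ c0 := (min_le_left _ _).trans (min_le_left _ _)
  have hc_leZ : c ≤ cZ / 2 := (min_le_left _ _).trans (min_le_right _ _)
  have hc_le1 : c ≤ θ ^ (Kx * m) * c1 := min_le_right _ _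
  have hpsz : psz t mu = 1 + |t| + ∑ j, ‖mu j‖ := rfl
  have hδ1 : δ * (1 + ∑ j, ‖mu j‖) ≤ c0 := by
    refine le_trans ?_ (hδc.trans hc_le0)
    rw [hpsz]
    have := abs_nonneg t
    exact mul_le_mul_of_nonneg_left (by linarith) hδ0.le
  -- the bump function
  set Φ0 : Mat m → ℂ := bump m χ δ with hΦ0
  obtain ⟨hTst0, hb⟩ := hB δ hδ0 hδ
  obtain ⟨hTeu, hTeu2, hder0, -⟩ := hEUL m hm Φ0 hTst0
  obtain ⟨hTP, hcfP, heuP, heu2P⟩ := hEKD m hm Kv cc Φ0 hTst0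
  obtain ⟨-, hcfP2, -, -⟩ := hEKD m hm Kv cc (eu2 Φ0) hTeu2
  set Φ : Mat m → ℂ := eK Kv cc Φ0 with hΦ
  obtain ⟨hTPeu, hTPeu2, hderP, hderF⟩ := hEUL m hm Φ hTP
  have hpA : (1 : ℝ) ≤ δ⁻¹ ^ (AB + AF) := one_le_pow₀ hi1
  have hpB : δ⁻¹ ^ AB ≤ δ⁻¹ ^ (AB + AF) := pow_le_pow_right₀ hi1 (by omega)
  have hpF : δ⁻¹ ^ AF ≤ δ⁻¹ ^ (AB + AF) := pow_le_pow_right₀ hi1 (by omega)
  have hB' : CB * δ⁻¹ ^ AB ≤ CB * δ⁻¹ ^ (AB + AF) := mul_le_mul_of_nonneg_left hpB hCB.le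
  have hF' : CF * δ⁻¹ ^ AF ≤ CF * δ⁻¹ ^ (AB + AF) := mul_le_mul_of_nonneg_left hpF hCF.le
  set M : ℝ := (1 + (m : ℝ) ^ 2 + CB + CF) * δ⁻¹ ^ (AB + AF) with hM
  have hMe : M = δ⁻¹ ^ (AB + AF) + (m : ℝ) ^ 2 * δ⁻¹ ^ (AB + AF) + CB * δ⁻¹ ^ (AB + AF) +
      CF * δ⁻¹ ^ (AB + AF) := by
    rw [hM]
    ring
  have hp0 : 0 ≤ δ⁻¹ ^ (AB + AF) := by linarith
  have hm2 : (m : ℝ) ^ 2 ≤ (m : ℝ) ^ 2 * δ⁻¹ ^ (AB + AF) :=
    le_mul_of_one_le_right (by positivity) hpA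
  have hCBp : 0 ≤ CB * δ⁻¹ ^ (AB + AF) := by positivity
  have hCFp : 0 ≤ CF * δ⁻¹ ^ (AB + AF) := by positivity
  have hm2p : 0 ≤ (m : ℝ) ^ 2 * δ⁻¹ ^ (AB + AF) := by positivity
  have hM0 : 0 ≤ M := by linarith
  have hM1 : 1 ≤ M := by linarith
  have hMB : CB * δ⁻¹ ^ AB ≤ M := by linarith
  have hMB2 : (m : ℝ) ^ 2 + CB * δ⁻¹ ^ AB ≤ M := by linarith
  have hMF : CF * δ⁻¹ ^ AF ≤ M := by linarith
  have hmin : ∀ r : ℝ, 0 < r → 0 ≤ min (r ^ K) (r ^ ((m : ℝ) ^ 2 / 2 + ε)) := fun r hr =>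
    le_min (by positivity) (Real.rpow_nonneg hr.le _)
  have hfin : ∀ X r : ℝ, 0 < r → 0 ≤ X → X ≤ M →
      (CT * X * min (r ^ K) (r ^ ((m : ℝ) ^ 2 / 2 + ε)) ≤
        (CT + CH) * (1 + (m : ℝ) ^ 2 + CB + CF) * δ⁻¹ ^ (AB + AF) *
          min (r ^ K) (r ^ ((m : ℝ) ^ 2 / 2 + ε))) ∧
      (CH * X * min (r ^ K) (r ^ ((m : ℝ) ^ 2 / 2 + ε)) ≤
        (CT + CH) * (1 + (m : ℝ) ^ 2 + CB + CF) * δ⁻¹ ^ (AB + AF) *
          min (r ^ K) (r ^ ((m : ℝ) ^ 2 / 2 + ε))) := by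
    intro X r hr hX hXM
    have h1 : (CT + CH) * (1 + (m : ℝ) ^ 2 + CB + CF) * δ⁻¹ ^ (AB + AF) = (CT + CH) * M := by
      rw [hM]
      ring
    rw [h1]
    constructor
    · refine mul_le_mul_of_nonneg_right ?_ (hmin r hr)
      exact mul_le_mul (by linarith) hXM hX (by positivity)
    · refine mul_le_mul_of_nonneg_right ?_ (hmin r hr)
      exact mul_le_mul (by linarith) hXM hX (by positivity)
  -- measurability
  have hmeas : ∀ f : Mat m → ℂ, Continuous f → Measurable (fun z : V m => f (mt z)) :=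
    (hMSR.1 m).2.2.2.2.2.2.2
  refine ⟨Φ, hTP, ?_, ?_, ?_⟩
  · -- the local transform of the test function
    refine phx_thb hm hTHE hmu hTP.cont hTPeu.cont (phx_rap hTP) (phx_rap hTPeu) hderP ?_ ?_
    · intro r hr
      have h1 := hT mu Kv cc δ 1 Φ0 hmu (fun j => ⟨hK5 j, hcc1 j⟩) hδ0 hδ hδ1 zero_le_one
        (hmeas _ hTst0.cont) (fun z => (hb z).1) (fun z => (hb z).2.2.1) r hr
      exact h1.trans (hfin 1 r hr zero_le_one hM1).1
    · intro r hr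
      rw [heuP]
      have h1 := hT mu Kv cc δ (CB * δ⁻¹ ^ AB) (eu Φ0) hmu (fun j => ⟨hK5 j, hcc1 j⟩) hδ0 hδ hδ1
        (by positivity) (hmeas _ hTeu.cont) (fun z => (hb z).2.1) (fun z => (hb z).2.2.2.1) r hr
      exact h1.trans (hfin _ r hr (by positivity) hMB).1
  · -- the local transform of the Fourier transform
    have hcfe : cf Φ = dK Kv (cmu mu) (cf Φ0) := by
      funext w
      rw [hcfP w, hcc2]
    have hcfe2 : cf (eu2 Φ) = dK Kv (cmu mu) (cf (eu2 Φ0)) := by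
      funext w
      rw [heu2P, hcfP2 w, hcc2]
    have hgoal : ThB (cf Φ) mu
        ((CT + CH) * (1 + (m : ℝ) ^ 2 + CB + CF) * δ⁻¹ ^ (AB + AF)) ε K := by
      refine phx_thb (f := cf Φ) (f1 := cf (eu2 Φ)) hm hTHE hmu (hFTG m hm Φ hTP).1.cont
        (hFTG m hm _ hTPeu2).1.cont (phx_dec (hFTG m hm Φ hTP).1) (phx_dec (hFTG m hm _ hTPeu2).1) hderF ?_ ?_
      · intro r hr
        rw [hcfe]
        have h1 := hH mu Kv Φ0 M hmu (fun j => ⟨hre2 j, hK5 j⟩) hK1 hM0 hTst0.cont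
          (fun z => (hb z).1.trans hM1) (fun z hz => (hb z).2.2.2.2 ((hb z).2.2.1 hz))
          (hFTG m hm Φ0 hTst0).1.cont (phx_dec (hFTG m hm Φ0 hTst0).1) (fun w => by
            refine (hF δ hδ0 hδ w).1.trans ?_
            exact mul_le_mul_of_nonneg_right hMF (Real.rpow_nonneg
              (add_nonneg zero_le_one (norm_nonneg _)) _)) r hr
        exact h1.trans (hfin M r hr hM0 le_rfl).2
      · intro r hr
        rw [hcfe2]
        have hsup : ∀ z, ‖eu2 Φ0 z‖ ≤ M := by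
          intro z
          have h2 : ‖eu2 Φ0 z‖ ≤ (m : ℝ) ^ 2 + CB * δ⁻¹ ^ AB := by
            show ‖-((m : ℂ) ^ 2 * Φ0 z + eu Φ0 z)‖ ≤ _
            rw [norm_neg]
            refine (norm_add_le _ _).trans (add_le_add ?_ (hb z).2.1)
            rw [norm_mul, norm_pow, Complex.norm_natCast]
            exact mul_le_of_le_one_right (by positivity) (hb z).1
          exact h2.trans hMB2
        have hsz : ∀ z, eu2 Φ0 z ≠ 0 → sz z ≤ 2 := by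
          intro z hz
          refine (hb z).2.2.2.2 ?_
          by_contra h3
          have h4 : Φ0 z = 0 := by
            by_contra h5
            exact h3 ((hb z).2.2.1 h5)
          have h5 : eu Φ0 z = 0 := by
            by_contra h6
            exact h3 ((hb z).2.2.2.1 h6)
          apply hz
          show -((m : ℂ) ^ 2 * Φ0 z + eu Φ0 z) = 0
          rw [h4, h5]
          simp
        have h1 := hH mu Kv (eu2 Φ0) M hmu (fun j => ⟨hre2 j, hK5 j⟩) hK1 hM0 hTeu2.cont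
          hsup hsz (hFTG m hm _ hTeu2).1.cont (phx_dec (hFTG m hm _ hTeu2).1) (fun w => by
            refine (hF δ hδ0 hδ w).2.trans ?_
            exact mul_le_mul_of_nonneg_right hMF (Real.rpow_nonneg
              (add_nonneg zero_le_one (norm_nonneg _)) _)) r hr
        exact h1.trans (hfin M r hr hM0 le_rfl).2
    exact hgoal
  · -- the lower bound
    rw [hZEK m hm Kv cc Φ0 mu hmu hTst0.toTst, norm_mul]
    have h1 : θ ^ (Kx * m) ≤ ‖∏ j, ∑ n ∈ Finset.range (Kv j + 1),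
        (((pK (Kv j)).coeff n : ℝ) : ℂ) * (cc j *
          (2 : ℂ) ^ ((1 / 2 + t * Complex.I) + ((m : ℂ) - 1) / 2 - m)) ^ n‖ :=
      phx_low hPKB mu t e θ he0 hθ0 hθ1 hθ2 Kv Kx hK4 hK2
    have hs : ‖(1 / 2 + t * Complex.I : ℂ)‖ ≤ 1 + |t| := by
      refine (norm_add_le _ _).trans ?_
      have h3 : ‖(1 / 2 : ℂ)‖ ≤ 1 := by
        rw [norm_div, norm_one, Complex.norm_ofNat]
        norm_num
      have h4 : ‖(t * Complex.I : ℂ)‖ = |t| := by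
        rw [norm_mul, Complex.norm_I, mul_one, Complex.norm_real, Real.norm_eq_abs]
      rw [h4]
      linarith
    have h2 := hZ mu (1 / 2 + t * Complex.I) δ hδ0 hδ (by
      have h5 : δ * (1 + ‖(1 / 2 + t * Complex.I : ℂ)‖ + ∑ j, ‖mu j‖) ≤
          2 * (δ * psz t mu) := by
        rw [hpsz]
        have h6 : 1 + ‖(1 / 2 + t * Complex.I : ℂ)‖ + ∑ j, ‖mu j‖ ≤
            2 * (1 + |t| + ∑ j, ‖mu j‖) := by
          have := abs_nonneg t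
          linarith
        calc δ * (1 + ‖(1 / 2 + t * Complex.I : ℂ)‖ + ∑ j, ‖mu j‖) ≤
            δ * (2 * (1 + |t| + ∑ j, ‖mu j‖)) := mul_le_mul_of_nonneg_left h6 hδ0.le
          _ = 2 * (δ * (1 + |t| + ∑ j, ‖mu j‖)) := by ring
      linarith)
    have hδp : 0 ≤ δ ^ (m ^ 2) := by positivity
    calc c * δ ^ (m ^ 2) ≤ θ ^ (Kx * m) * c1 * δ ^ (m ^ 2) :=
          mul_le_mul_of_nonneg_right hc_le1 hδp
      _ = θ ^ (Kx * m) * (c1 * δ ^ (m ^ 2)) := by ring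
      _ ≤ _ := mul_le_mul h1 h2 (by positivity) (norm_nonneg _)

end Pool.Agent.H27.GZ
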